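import Pool.Agent.H34.N6V.Targets
import Pool.Agent.H23.N6E.EBD2

/-!
# V20: the property near infinity
-/

set_option autoImplicit false

open Polynomial NumberField IsDedekindDomain Pool.Agent.H32.QC Pool.Agent.H34.N6
open Pool.Agent.H13.DEV Pool.Agent.H34.N6V

namespace Pool.Agent.H36.N6V

theorem eval_lt_one {F : Type*} [NormedField F] [IsUltrametricDist F] {A : F[X]}
    (hA : ∀ i, ‖A.coeff i‖ < 1) {x : F} (hx : ‖x‖ ≤ 1) : ‖eval x A‖ < 1 := by
  rw [eval_eq_sum_range]
  obtain ⟨i, -, hi⟩ := IsUltrametricDist.exists_norm_finsetSum_le_of_nonempty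
    (t := Finset.range (A.natDegree + 1)) ⟨0, by simp⟩ (fun i => A.coeff i * x ^ i)
  refine hi.trans_lt ?_
  rw [norm_mul, norm_pow]
  calc ‖A.coeff i‖ * ‖x‖ ^ i ≤ ‖A.coeff i‖ * 1 :=
        mul_le_mul_of_nonneg_left (pow_le_one₀ (norm_nonneg _) hx) (norm_nonneg _)
    _ < 1 := by rw [mul_one]; exact hA i

theorem nsub {F : Type*} [NormedField F] [IsUltrametricDist F] (a b : F) :
    ‖a - b‖ ≤ max ‖a‖ ‖b‖ := by
  have h := IsUltrametricDist.norm_add_le_max a (-b)
  rwa [norm_neg, ← sub_eq_add_neg] at h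

theorem eval_icw {k K : Type} [Field k] [NumberField k] [Field K] [NumberField K] [Algebra k K]
    (P : k[X]) (w : FPl K) (θ : K) : eval (ic w θ) (P.map (kc k w)) = ic w (aeval θ P) := by
  rw [eval_map, aeval_def, Polynomial.hom_eval₂]

theorem pf_INA (hBEL : T_BEL) : T_INA := by
  intro k ι _ _ _ _ P E D R S N G ε v c π h hv hπ hπ1 hc hPc
  refine ⟨1, one_pos, ?_⟩
  intro G' hG' hdeg hclose K _ _ _ w hw θ hadj hθ
  cases w with
  | inr φ => exact absurd hw (by simp [bel])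
  | inl w =>
  have hwv : w.under (𝓞 k) = v := Sum.inl.inj hw
  subst hwv
  rcases lt_or_ge 1 ‖ic w θ‖ with h1 | h1
  · exact h.far K w θ hv h1
  set x := ic w θ with hx
  have hlt : ∀ y : k, ‖ic (w.under (𝓞 k)) y‖ < 1 → ‖kc k w y‖ < 1 := fun y hy =>
    (((hBEL k K w).1 y).2).2 hy
  have hint : ∀ i, ‖((∏ j, P j).map (kc k w)).coeff i‖ ≤ 1 :=
    fun i => poly_up (h.good _ hv).all.intP i
  -- the value of the polynomial
  have e1 : eval x (((X - C π⁻¹) * (X - C c) ^ (N - 1)).map (kc k w)) =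
      (x - (kc k w π)⁻¹) * (x - kc k w c) ^ (N - 1) := by
    rw [Polynomial.map_mul, Polynomial.map_pow, Polynomial.map_sub, Polynomial.map_sub, map_X,
      map_C, map_C, eval_mul, eval_pow, eval_sub, eval_sub, eval_X, eval_C, eval_C, map_inv₀]
  have e2 : eval x (G'.map (kc k w)) = 0 := by
    rw [hx, eval_icw, hθ, map_zero]
  have e3 : ‖(x - (kc k w π)⁻¹) * (x - kc k w c) ^ (N - 1)‖ < 1 := by
    have e4 : (x - (kc k w π)⁻¹) * (x - kc k w c) ^ (N - 1) =
        -eval x ((G' - (X - C π⁻¹) * (X - C c) ^ (N - 1)).map (kc k w)) := by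
      rw [Polynomial.map_sub, eval_sub, e1, e2]
      ring
    rw [e4, norm_neg]
    refine eval_lt_one (fun i => ?_) h1
    rw [coeff_map]
    exact hlt _ (hclose i)
  have hπ0 : kc k w π ≠ 0 := (_root_.map_ne_zero _).2 hπ
  have hπ2 : 0 < ‖kc k w π‖ := norm_pos_iff.2 hπ0
  have hπ3 : 1 < ‖(kc k w π)⁻¹‖ := by
    rw [norm_inv]
    exact (one_lt_inv₀ hπ2).2 (hlt π hπ1)
  have h2 : 1 < ‖x - (kc k w π)⁻¹‖ := by
    by_contra hcon
    push Not at hcon
    have h3 : (kc k w π)⁻¹ = x - (x - (kc k w π)⁻¹) := by ring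
    have h4 : ‖(kc k w π)⁻¹‖ ≤ 1 := by
      rw [h3]
      exact (nsub _ _).trans (max_le h1 hcon)
    linarith
  have h5 : ‖x - kc k w c‖ < 1 := by
    by_contra hcon
    push Not at hcon
    rw [norm_mul, norm_pow] at e3
    have h6 : (1 : ℝ) ≤ ‖x - kc k w c‖ ^ (N - 1) := one_le_pow₀ hcon
    nlinarith
  have hc' : ‖kc k w c‖ ≤ 1 := norm_up_le w c hc
  have hev : eval (kc k w c) ((∏ j, P j).map (kc k w)) =
      ic w (algebraMap k K (eval c (∏ j, P j))) := by
    rw [eval_map, eval₂_at_apply]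
    rfl
  have h7 : ‖eval (kc k w c) ((∏ j, P j).map (kc k w))‖ = 1 := by
    rw [hev]
    exact norm_up_one w _ hPc
  have h8 : ¬ ‖eval x ((∏ j, P j).map (kc k w))‖ < 1 := by
    intro h9
    have h10 := Pool.Agent.H23.N6E.eval_sub_le hint h1 hc'
    have h11 : eval (kc k w c) ((∏ j, P j).map (kc k w)) =
        eval x ((∏ j, P j).map (kc k w)) - (eval x ((∏ j, P j).map (kc k w)) -
          eval (kc k w c) ((∏ j, P j).map (kc k w))) := by ring
    have h12 : ‖eval (kc k w c) ((∏ j, P j).map (kc k w))‖ < 1 := by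
      rw [h11]
      exact (nsub _ _).trans_lt (max_lt h9 (h10.trans_lt h5))
    linarith
  refine h.pos K w θ hv h1 ?_ ?_
  · intro h9
    apply h8
    rw [hx, eval_icw, h9, map_zero, norm_zero]
    exact one_pos
  · intro e he hex
    exfalso
    apply h8
    rw [← eval_map] at he
    have he1 : ‖e‖ ≤ 1 := by
      have h9 : e = (e - x) + x := by ring
      rw [h9]
      exact (IsUltrametricDist.norm_add_le_max _ _).trans (max_le hex.le h1)
    have h10 := Pool.Agent.H23.N6E.eval_sub_le hint he1 h1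
    rw [he, zero_sub, norm_neg] at h10
    exact h10.trans_lt hex

end Pool.Agent.H36.N6V
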