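import Pool.Agent.H34.N6V.Targets
import Pool.Agent.H23.N6E.EBD2
import Pool.Agent.H23.QCF.All

/-!
# V21: the symbols near infinity
-/

set_option autoImplicit false

open Polynomial NumberField IsDedekindDomain Pool.Agent.H32.QC Pool.Agent.H34.N6
open Pool.Agent.H13.DEV Pool.Agent.H34.N6V

namespace Pool.Agent.H36.N6V.INB

theorem eval_le_one {F : Type*} [NormedField F] [IsUltrametricDist F] {A : F[X]}
    (hA : ∀ i, ‖A.coeff i‖ ≤ 1) {x : F} (hx : ‖x‖ ≤ 1) : ‖eval x A‖ ≤ 1 := by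
  rw [eval_eq_sum_range]
  obtain ⟨i, -, hi⟩ := IsUltrametricDist.exists_norm_finsetSum_le_of_nonempty
    (t := Finset.range (A.natDegree + 1)) ⟨0, by simp⟩ (fun i => A.coeff i * x ^ i)
  refine hi.trans ?_
  rw [norm_mul, norm_pow]
  exact mul_le_one₀ (hA i) (pow_nonneg (norm_nonneg _) _) (pow_le_one₀ (norm_nonneg _) hx)

theorem nsub {F : Type*} [NormedField F] [IsUltrametricDist F] (a b : F) :
    ‖a - b‖ ≤ max ‖a‖ ‖b‖ := by
  have h := IsUltrametricDist.norm_add_le_max a (-b)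
  rwa [norm_neg, ← sub_eq_add_neg] at h

theorem eval_icw {k K : Type} [Field k] [NumberField k] [Field K] [NumberField K] [Algebra k K]
    (P : k[X]) (w : FPl K) (θ : K) : eval (ic w θ) (P.map (kc k w)) = ic w (aeval θ P) := by
  rw [eval_map, aeval_def, Polynomial.hom_eval₂]

section vals

variable {K : Type} [Field K] [NumberField K]

theorem val_le_iff (v : FPl K) {x y : K} (hy : y ≠ 0) :
    v.valuation K x ≤ v.valuation K y ↔ ‖ic v x‖ ≤ ‖ic v y‖ := by
  have h1 := norm_ic_le_one_iff v (x / y)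
  have hy1 : 0 < v.valuation K y := by
    rw [zero_lt_iff]
    simpa using hy
  have hy2 : 0 < ‖ic v y‖ := norm_pos_iff.2 ((_root_.map_ne_zero (ic v)).2 hy)
  rw [map_div₀, map_div₀, norm_div, div_le_one hy2, div_le_one₀ hy1] at h1
  exact h1.symm

theorem val_one_iff (v : FPl K) {x : K} (hx : x ≠ 0) :
    v.valuation K x = 1 ↔ ‖ic v x‖ = 1 := by
  have h1 := val_le_iff v (x := x) (y := 1) one_ne_zero
  have h2 := val_le_iff v (x := 1) (y := x) hx
  rw [map_one, map_one, norm_one] at h1 h2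
  constructor
  · intro h
    exact le_antisymm (h1.1 h.le) (h2.1 h.ge)
  · intro h
    exact le_antisymm (h1.2 h.le) (h2.2 h.ge)

/-- an element of maximal norm below one has valuation `exp (-1)` -/
theorem val_unif (v : FPl K) {π : K} (hπ : π ≠ 0) (h1 : ‖ic v π‖ < 1)
    (hm : ∀ x : K, ‖ic v x‖ < 1 → ‖ic v x‖ ≤ ‖ic v π‖) :
    v.valuation K π = WithZero.exp (-1) := by
  obtain ⟨ϖ, hϖ⟩ := v.valuation_exists_uniformizer K
  have hϖ0 : ϖ ≠ 0 := by
    rintro rfl
    rw [map_zero] at hϖ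
    exact WithZero.exp_ne_zero hϖ.symm
  have hϖ1 : ‖ic v ϖ‖ < 1 := by
    rw [← not_le]
    intro h
    have h2 := (val_le_iff v (x := 1) (y := ϖ) hϖ0).2 (by rw [map_one, norm_one]; exact h)
    rw [map_one, hϖ] at h2
    have h3 : (1 : WithZero (Multiplicative ℤ)) = WithZero.exp 0 := WithZero.exp_zero.symm
    rw [h3, WithZero.exp_le_exp] at h2
    norm_num at h2
  have h2 : WithZero.exp (-1) ≤ v.valuation K π := by
    rw [← hϖ]
    exact (val_le_iff v hπ).2 (hm ϖ hϖ1)
  obtain ⟨m, hmv⟩ := Pool.Agent.H23.QCF.exp_val v hπ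
  have h4 : ¬ (1 : WithZero (Multiplicative ℤ)) ≤ v.valuation K π := by
    intro h
    have h5 := (val_le_iff v (x := 1) (y := π) hπ).1 (by rw [map_one]; exact h)
    rw [map_one, norm_one] at h5
    linarith
  rw [hmv] at h2 h4 ⊢
  rw [WithZero.exp_le_exp] at h2
  rw [← WithZero.exp_zero, WithZero.exp_le_exp] at h4
  have : m = -1 := by omega
  rw [this]

end vals

theorem pf_INB (hFAD : T_FAD) (hBEL : T_BEL) (hFIN : T_FIN) : T_INB := by
  have _ := hBEL
  have _ := hFIN
  intro k L _ _ _ _ _ P D e v c π n hP heP hgood hπ hπ1 hπm hc hPc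
  have hset : {w : Pl L | bel (k := k) w = Sum.inl v} =
      Sum.inl '' {w : FPl L | w.under (𝓞 k) = v} := by
    ext w
    constructor
    · intro hw
      cases w with
      | inl w => exact ⟨w, Sum.inl.inj hw, rfl⟩
      | inr φ => exact absurd hw (by simp [bel])
    · rintro ⟨w, hw, rfl⟩
      show Sum.inl (w.under (𝓞 k)) = Sum.inl v
      rw [show w.under (𝓞 k) = v from hw]
  have h1 : ∏ᶠ (w : Pl L) (_ : bel (k := k) w = Sum.inl v),
      hs w (aeval e ((X - C π⁻¹) * (X - C c) ^ n)) (aeval e D) =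
      ∏ᶠ w ∈ {w : Pl L | bel (k := k) w = Sum.inl v},
        hs w (aeval e ((X - C π⁻¹) * (X - C c) ^ n)) (aeval e D) := rfl
  rw [h1, hset, finprod_mem_image (fun a _ b _ hab => Sum.inl.inj hab)]
  refine finprod_mem_congr (s := {w : FPl L | w.under (𝓞 k) = v})
    (t := {w : FPl L | w.under (𝓞 k) = v}) rfl ?_
  intro w hw
  have hwv : w.under (𝓞 k) = v := hw
  subst hwv
  by_cases hsq : IsSquare (ic w (aeval e D))
  · rw [if_pos hsq]
    exact Pool.Agent.H23.QCF.All.hsq L (.inl w) _ _ hsq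
  rw [if_neg hsq]
  have haeP : aeval e P = 0 := by
    rw [← heP.mp]
    exact minpoly.aeval k e
  have hint : ∀ A : k[X], Int (w.under (𝓞 k)) A → ∀ i, ‖(A.map (kc k w)).coeff i‖ ≤ 1 :=
    fun A hA i => poly_up hA i
  have he1 : ‖ic w e‖ ≤ 1 := by
    refine Pool.Agent.H23.N6E.root_int (P := P.map (kc k w)) (hP.map _) (hint P hgood.intP) ?_
    rw [eval_icw, haeP, map_zero]
  -- the norm of `e - c`
  have hc' : ‖kc k w c‖ ≤ 1 := norm_up_le w c hc
  have hPc' : ‖eval (kc k w c) (P.map (kc k w))‖ = 1 := by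
    rw [eval_map, eval₂_at_apply]
    exact norm_up_one w _ hPc
  have hec : ‖ic w e - kc k w c‖ = 1 := by
    apply le_antisymm ((nsub _ _).trans (max_le he1 hc'))
    have h2 := Pool.Agent.H23.N6E.eval_sub_le (hint P hgood.intP) hc' he1
    rw [eval_icw, haeP, map_zero, sub_zero, hPc', norm_sub_rev] at h2
    exact h2
  -- the norm of `D(e)`
  obtain ⟨a, b, ha, hb, hab⟩ := hgood.cop
  have hD1 : ‖ic w (aeval e D)‖ = 1 := by
    have h2 : ‖ic w (aeval e D)‖ ≤ 1 := by
      rw [← eval_icw]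
      exact eval_le_one (hint D hgood.intD) he1
    have h3 : ‖ic w (aeval e b)‖ ≤ 1 := by
      rw [← eval_icw]
      exact eval_le_one (hint b hb) he1
    have h4 := congrArg (aeval e) hab
    rw [map_add, map_mul, map_mul, haeP, mul_zero, zero_add, map_one] at h4
    have h5 := congrArg (fun y => ‖ic w y‖) h4
    simp only [map_mul, norm_mul, map_one, norm_one] at h5
    apply le_antisymm h2
    calc (1 : ℝ) = ‖ic w (aeval e b)‖ * ‖ic w (aeval e D)‖ := h5.symm
      _ ≤ 1 * ‖ic w (aeval e D)‖ := mul_le_mul_of_nonneg_right h3 (norm_nonneg _)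
      _ = _ := one_mul _
  have hD0 : aeval e D ≠ 0 := by
    intro h
    rw [h, map_zero, norm_zero] at hD1
    exact zero_ne_one hD1
  -- the valuation of `π`
  have hun : ∀ x : w.adicCompletion L, ‖x‖ < 1 → ‖x‖ ≤ ‖kc k w π‖ := by
    obtain ⟨A, -, -, -, -, -, -, h2, -⟩ := hFAD k L P D e w hP heP hgood
    exact h2 π hπ1 hπm
  have hπL : algebraMap k L π ≠ 0 := (_root_.map_ne_zero _).2 hπ
  have hπw : ‖ic w (algebraMap k L π)‖ < 1 := (((hBEL k L w).1 π).2).2 hπ1
  have hvπ : w.valuation L (algebraMap k L π) = WithZero.exp (-1) :=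
    val_unif w hπL hπw fun x hx => hun _ hx
  -- the first factor
  have hinv : ic w (algebraMap k L π⁻¹) = (ic w (algebraMap k L π))⁻¹ := by
    rw [map_inv₀, map_inv₀]
  have hpos : 0 < ‖ic w (algebraMap k L π)‖ :=
    norm_pos_iff.2 ((_root_.map_ne_zero (ic w)).2 hπL)
  have hbig : 1 < ‖ic w (algebraMap k L π⁻¹)‖ := by
    rw [hinv, norm_inv]
    exact (one_lt_inv₀ hpos).2 hπw
  have hπiL : algebraMap k L π⁻¹ ≠ 0 := (_root_.map_ne_zero _).2 (inv_ne_zero hπ)
  have hnf : ‖ic w (e - algebraMap k L π⁻¹)‖ = ‖ic w (algebraMap k L π⁻¹)‖ := by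
    rw [map_sub]
    apply le_antisymm
    · refine (nsub _ _).trans (max_le ?_ le_rfl)
      linarith
    · by_contra hcon
      push Not at hcon
      have h2 : ic w (algebraMap k L π⁻¹) =
          ic w e - (ic w e - ic w (algebraMap k L π⁻¹)) := by ring
      have h3 : ‖ic w (algebraMap k L π⁻¹)‖ < ‖ic w (algebraMap k L π⁻¹)‖ := by
        conv_lhs => rw [h2]
        refine (nsub _ _).trans_lt (max_lt ?_ hcon)
        linarith
      exact lt_irrefl _ h3
  have hf0 : e - algebraMap k L π⁻¹ ≠ 0 := by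
    intro h
    rw [h, map_zero, norm_zero] at hnf
    linarith
  have hv1 : w.valuation L (e - algebraMap k L π⁻¹) = WithZero.exp 1 := by
    have h2 : w.valuation L (e - algebraMap k L π⁻¹) = w.valuation L (algebraMap k L π⁻¹) :=
      le_antisymm ((val_le_iff w hπiL).2 hnf.le) ((val_le_iff w hf0).2 hnf.ge)
    rw [h2, map_inv₀, map_inv₀, hvπ, ← WithZero.exp_neg]
    norm_num
  have hec0 : e - algebraMap k L c ≠ 0 := by
    intro h
    have h2 := congrArg (fun y => ‖ic w y‖) h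
    simp only [map_sub, map_zero, norm_zero] at h2
    have h3 : ‖ic w e - kc k w c‖ = 0 := h2
    rw [hec] at h3
    exact one_ne_zero h3
  have hv2 : w.valuation L (e - algebraMap k L c) = 1 := by
    rw [val_one_iff w hec0, map_sub]
    exact hec
  have hva : w.valuation L (aeval e ((X - C π⁻¹) * (X - C c) ^ n)) = WithZero.exp 1 := by
    rw [map_mul, map_pow, map_sub, map_sub, aeval_X, aeval_C, aeval_C, map_mul, map_pow, hv1, hv2,
      one_pow, mul_one]
  have hvD : w.valuation L (aeval e D) = WithZero.exp 0 := by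
    rw [WithZero.exp_zero, val_one_iff w hD0]
    exact hD1
  have hv2' : w.valuation L 2 = 1 := by
    rw [val_one_iff w two_ne_zero]
    have h2 := norm_up_one w (2 : k) hgood.two
    rwa [map_ofNat] at h2
  exact Pool.Agent.H23.QCF.All.unr L w _ _ 1 0 hv2' hva hvD (by decide) (by decide) hsq

end Pool.Agent.H36.N6V.INB

namespace Pool.Agent.H36.N6V

theorem pf_INB (hFAD : T_FAD) (hBEL : T_BEL) (hFIN : T_FIN) : T_INB :=
  INB.pf_INB hFAD hBEL hFIN

end Pool.Agent.H36.N6V
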